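import Pool.Agent.X238.Uec.Machine

set_option autoImplicit false

/-!
# Unique equality continuation instances are not recognisable

There is no algorithm that decides whether an instance of the Post correspondence problem is a
unique equality continuation instance. This holds already for the instances in which everything but
one of the words `h c` is fixed.
-/

namespace Pool.Agent.Results.MP_c472bb_lc.UniqueContinuationUndecidable

open Pool.Agent.X238.Uec

theorem result :
    ¬ ComputablePred UEC ∧ ¬ REPred UEC ∧
    ∃ (K : List (List ℕ × List ℕ)) (g0 : List ℕ), ∀ W : ℕ → Prop, REPred W →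
      ∃ f : ℕ → List ℕ, Computable f ∧ ∀ n, UEC ((f n, g0) :: K) ↔ ¬ W n := by
  obtain ⟨K, g0, h⟩ := exists_instances
  have key : ¬ REPred UEC := by
    intro hc
    obtain ⟨W, hW, hW'⟩ := Pool.Agent.Y669.TA.SysU.exists_re_not_co
    obtain ⟨f, hf, hf'⟩ := h W hW
    have h1 : Computable fun n => ((f n, g0) :: K) :=
      Computable.list_cons.comp (hf.pair (Computable.const g0)) (Computable.const K)
    have h2 : REPred fun n => UEC ((f n, g0) :: K) := Partrec.comp hc h1
    exact hW' (h2.of_eq hf')
  exact ⟨fun hc => key hc.to_re, key, K, g0, h⟩

end Pool.Agent.Results.MP_c472bb_lc.UniqueContinuationUndecidable
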